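import Pool.Agent.Q27.TG.Cls
import Pool.Agent.Q184.Mit.Lim

/-!
# Test groups: summary
-/

set_option autoImplicit false

namespace Q27.TG

open Q30.FJ (TorsionFree)
open Q184.Mit (Mitotic)

/-- a single countable mitotic group decides for all groups -/
theorem one_all_mit : ∃ (M : Type) (_ : Group M), Countable M ∧ Mitotic M ∧
    ∀ C : ∀ (G : Type) [Group G], Prop, SubColim C → (C M ↔ ∀ (G : Type) [Group G], C G) := by
  obtain ⟨U, _, a, b, hab, hU⟩ := one_all
  obtain ⟨M, _, ι, hι, hmit, hcount, -, -⟩ := Q184.Mit.exists_mitotic U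
  have hc : Countable U := by
    obtain ⟨n, π, hπ⟩ := fg_equiv U ({a, b} : Set U).toFinite.toFinset
    have h2 : Subgroup.closure ((({a, b} : Set U).toFinite.toFinset : Finset U) : Set U) = ⊤ := by
      rw [Set.Finite.coe_toFinset, hab]
    have h3 : Countable ↥(Subgroup.closure ((({a, b} : Set U).toFinite.toFinset : Finset U) :
        Set U)) := hπ.countable
    rw [h2] at h3
    exact Subgroup.topEquiv.surjective.countable
  refine ⟨M, inferInstance, hcount hc, hmit, fun C hC => ⟨fun h => ?_, fun h => h M⟩⟩
  exact (hU C hC).1 (hC.of_injective U M ι hι h)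

/-- a single countable torsion-free mitotic group decides for all torsion-free groups -/
theorem one_tf_mit : ∃ (M : Type) (_ : Group M), Countable M ∧ Mitotic M ∧ TorsionFree M ∧
    ∀ C : ∀ (G : Type) [Group G], Prop, SubColim C →
      (C M ↔ ∀ (G : Type) [Group G], TorsionFree G → C G) := by
  obtain ⟨U, _, a, b, hab, htf, hU⟩ := one_tf
  obtain ⟨M, _, ι, hι, hmit, hcount, htf', -⟩ := Q184.Mit.exists_mitotic U
  have hc : Countable U := by
    obtain ⟨n, π, hπ⟩ := fg_equiv U ({a, b} : Set U).toFinite.toFinset
    have h2 : Subgroup.closure ((({a, b} : Set U).toFinite.toFinset : Finset U) : Set U) = ⊤ := by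
      rw [Set.Finite.coe_toFinset, hab]
    have h3 : Countable ↥(Subgroup.closure ((({a, b} : Set U).toFinite.toFinset : Finset U) :
        Set U)) := hπ.countable
    rw [h2] at h3
    exact Subgroup.topEquiv.surjective.countable
  refine ⟨M, inferInstance, hcount hc, hmit, htf' htf, fun C hC => ⟨fun h => ?_,
    fun h => h M (htf' htf)⟩⟩
  exact (hU C hC).1 (hC.of_injective U M ι hι h)

/-- the symmetric group of a countable set decides for all groups -/
theorem perm_nat {C : ∀ (G : Type) [Group G], Prop} (hC : SubColim C) :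
    C (Equiv.Perm ℕ) ↔ ∀ (G : Type) [Group G], C G := by
  refine ⟨fun h G _ => of_fg hC G fun s => ?_, fun h => h _⟩
  have := countable_closure s
  obtain ⟨e⟩ : Nonempty (↥(Subgroup.closure (s : Set G)) × ℕ ≃ ℕ) := nonempty_equiv_of_countable
  obtain ⟨f, hf⟩ : ∃ f : ↥(Subgroup.closure (s : Set G)) →*
      Equiv.Perm (↥(Subgroup.closure (s : Set G)) × ℕ), ∀ g x, f g x = (g * x.1, x.2) := by
    refine ⟨{ toFun := fun g => Equiv.prodCongr (Equiv.mulLeft g) (Equiv.refl ℕ)
              map_one' := ?_
              map_mul' := fun g h => ?_ }, fun g x => rfl⟩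
    · ext x
      · simp
      · simp
    · ext x
      · simp [mul_assoc]
      · simp
  refine hC.of_injective _ _ (e.permCongrHom.toMonoidHom.comp f) ?_ h
  refine e.permCongrHom.injective.comp fun g h hgh => ?_
  have h1 := congrArg Prod.fst (DFunLike.congr_fun hgh (1, 0))
  rw [hf, hf] at h1
  simpa using h1

end Q27.TG
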