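import Pool.Agent.Y462.SS.Base
import Mathlib.GroupTheory.FreeGroup.Basic
import Mathlib.GroupTheory.QuotientGroup.Basic

/-!
# Classes of groups which are closed under subgroups and directed colimits
-/

set_option autoImplicit false

namespace Q27.TG

/-- A class of groups which is closed under subgroups (groups that embed) and under colimits of
directed systems, with arbitrary structure maps. -/
structure SubColim (C : ∀ (G : Type) [Group G], Prop) : Prop where
  of_injective : ∀ (G H : Type) [Group G] [Group H] (f : G →* H), Function.Injective f →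
    C H → C G
  colim : ∀ (I : Type) [Preorder I] [Nonempty I] (_ : ∀ i j : I, ∃ k, i ≤ k ∧ j ≤ k)
    (G : I → Type) [∀ i, Group (G i)] (f : ∀ i j, i ≤ j → G i →* G j)
    (L : Type) [Group L] (g : ∀ i, G i →* L),
    (∀ i (h : i ≤ i) (x : G i), f i i h x = x) →
    (∀ i j k (h : i ≤ j) (h' : j ≤ k) (x : G i), f j k h' (f i j h x) = f i k (h.trans h') x) →
    (∀ i j (h : i ≤ j) (x : G i), g j (f i j h x) = g i x) →
    (∀ y : L, ∃ i, ∃ x : G i, g i x = y) →
    (∀ i (x : G i), g i x = 1 → ∃ j, ∃ h : i ≤ j, f i j h x = 1) →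
    (∀ i, C (G i)) → C L

theorem SubColim.of_closed {C : ∀ (G : Type) [Group G], Prop} (h : Pool.Agent.Y462.SS.Closed C) :
    SubColim C := ⟨h.of_injective, h.colim⟩

variable {C : ∀ (G : Type) [Group G], Prop}

/-- a group all of whose finitely generated subgroups are in the class -/
theorem of_fg (hC : SubColim C) (G : Type) [Group G]
    (h : ∀ s : Finset G, C ↥(Subgroup.closure (s : Set G))) : C G := by
  classical
  refine hC.colim (Finset G) (fun i j => ⟨i ∪ j, Finset.subset_union_left,
    Finset.subset_union_right⟩) (fun s => ↥(Subgroup.closure (s : Set G)))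
    (fun s t hst => Subgroup.inclusion (Subgroup.closure_mono (by exact_mod_cast hst))) G
    (fun s => Subgroup.subtype _) (fun _ _ _ => rfl) (fun _ _ _ _ _ _ => rfl) (fun _ _ _ _ => rfl)
    ?_ ?_ h
  · intro y
    exact ⟨{y}, ⟨y, Subgroup.subset_closure (by simp)⟩, rfl⟩
  · intro s x hx
    exact ⟨s, le_rfl, Subtype.ext hx⟩

/-- a group is the colimit of its approximations by finitely many relations -/
theorem of_relations (hC : SubColim C) (F : Type) [Group F] (K : Subgroup F) [K.Normal]
    (ρ : Finset F → Subgroup F) [∀ R : Finset F, (ρ R).Normal]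
    (hmono : ∀ R R', R ⊆ R' → ρ R ≤ ρ R') (hself : ∀ R : Finset F, (R : Set F) ⊆ ρ R) (hle : ∀ R : Finset F, (R : Set F) ⊆ K → ρ R ≤ K)
    (h : ∀ R : Finset F, (R : Set F) ⊆ K → C (F ⧸ ρ R)) : C (F ⧸ K) := by
  classical
  have : Nonempty {R : Finset F // (R : Set F) ⊆ K} := ⟨⟨∅, by simp⟩⟩
  refine hC.colim {R : Finset F // (R : Set F) ⊆ K} (fun i j => ⟨⟨i.1 ∪ j.1, by
      rw [Finset.coe_union]
      exact Set.union_subset i.2 j.2⟩, Finset.subset_union_left, Finset.subset_union_right⟩)
    (fun R => F ⧸ ρ R.1) (fun R R' hR => QuotientGroup.map _ _ (MonoidHom.id F) (hmono _ _ hR))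
    (F ⧸ K) (fun R => QuotientGroup.map _ _ (MonoidHom.id F) (hle _ R.2)) ?_ ?_ ?_ ?_ ?_
    (fun R => h R.1 R.2)
  · intro R _ x
    induction x using QuotientGroup.induction_on with
    | H z => rfl
  · intro R R' R'' _ _ x
    induction x using QuotientGroup.induction_on with
    | H z => rfl
  · intro R R' _ x
    induction x using QuotientGroup.induction_on with
    | H z => rfl
  · intro y
    induction y using QuotientGroup.induction_on with
    | H z => exact ⟨⟨∅, by simp⟩, QuotientGroup.mk z, rfl⟩
  · intro R x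
    induction x using QuotientGroup.induction_on with
    | H z =>
      intro hz
      have hzK : z ∈ K := (QuotientGroup.eq_one_iff z).1 hz
      refine ⟨⟨insert z R.1, ?_⟩, Finset.subset_insert _ _, ?_⟩
      · rw [Finset.coe_insert]
        exact Set.insert_subset hzK R.2
      · exact (QuotientGroup.eq_one_iff z).2 (hself _ (by simp))

end Q27.TG
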