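import Pool.Agent.Q27.TG.Ord

/-!
# Residual classes
-/

set_option autoImplicit false

namespace Q27.TG

variable {C : ∀ (G : Type) [Group G], Prop}

/-- the homomorphisms from `G` to the groups `P n` separate the elements of `G` -/
def Residual (P : ℕ → Type) [∀ n, Group (P n)] (G : Type) [Group G] : Prop :=
  ∀ g : G, g ≠ 1 → ∃ (n : ℕ) (f : G →* P n), f g ≠ 1

/-- each of the groups embeds in the next one -/
def Chain (P : ℕ → Type) [∀ n, Group (P n)] : Prop :=
  ∀ n, ∃ f : P n →* P (n + 1), Function.Injective f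

theorem Chain.le {P : ℕ → Type} [∀ n, Group (P n)] (h : Chain P) {m n : ℕ} (hmn : m ≤ n) :
    ∃ f : P m →* P n, Function.Injective f := by
  induction n, hmn using Nat.le_induction with
  | base => exact ⟨MonoidHom.id _, Function.injective_id⟩
  | succ n _ ih =>
    obtain ⟨f, hf⟩ := ih
    obtain ⟨g, hg⟩ := h n
    exact ⟨g.comp f, hg.comp hf⟩

theorem residual_pi (P : ℕ → Type) [∀ n, Group (P n)] : Residual P (∀ n, P n) := by
  intro g hg
  by_contra h
  push Not at h
  exact hg (funext fun n => h n (Pi.evalMonoidHom P n))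

theorem exists_pi {P : ℕ → Type} [∀ n, Group (P n)] (h : Chain P) (H : Type) [Group H]
    [Countable H] (hH : Residual P H) : ∃ f : H →* (∀ n, P n), Function.Injective f := by
  classical
  obtain ⟨e, he⟩ := exists_surjective_nat H
  have h1 : ∀ k : ℕ, ∃ n : ℕ, e k ≠ 1 → ∃ f : H →* P n, f (e k) ≠ 1 := by
    intro k
    by_cases hk : e k = 1
    · exact ⟨0, fun h' => absurd hk h'⟩
    · obtain ⟨n, f, hf⟩ := hH (e k) hk
      exact ⟨n, fun _ => ⟨f, hf⟩⟩
  choose N hN using h1
  obtain ⟨m, hm⟩ : ∃ m : ℕ → ℕ, m = fun k => ∑ i ∈ Finset.range (k + 1), (N i + 1) := ⟨_, rfl⟩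
  have hms : StrictMono m := by
    apply strictMono_nat_of_lt_succ
    intro k
    rw [hm]
    change ∑ i ∈ Finset.range (k + 1), (N i + 1) < ∑ i ∈ Finset.range (k + 1 + 1), (N i + 1)
    rw [Finset.sum_range_succ _ (k + 1)]
    omega
  have hmN : ∀ k, N k ≤ m k := by
    intro k
    rw [hm]
    change N k ≤ ∑ i ∈ Finset.range (k + 1), (N i + 1)
    rw [Finset.sum_range_succ]
    omega
  have h2 : ∀ n : ℕ, ∃ F : H →* P n, ∀ k, m k = n → e k ≠ 1 → F (e k) ≠ 1 := by
    intro n
    by_cases hn : ∃ k, m k = n ∧ e k ≠ 1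
    · obtain ⟨k, rfl, hk⟩ := hn
      obtain ⟨f, hf⟩ := hN k hk
      obtain ⟨i, hi⟩ := h.le (hmN k)
      refine ⟨i.comp f, fun k' hk' _ => ?_⟩
      have : k' = k := hms.injective hk'
      subst this
      intro h3
      exact hf (hi (h3.trans (map_one i).symm))
    · push Not at hn
      exact ⟨1, fun k hk hk' => absurd (hn k hk) hk'⟩
  choose F hF using h2
  refine ⟨MonoidHom.pi F, ?_⟩
  rw [injective_iff_map_eq_one]
  intro x hx
  obtain ⟨k, rfl⟩ := he x
  by_contra hk
  exact hF (m k) k rfl hk (congrFun hx (m k))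

/-- **the product of the chain decides for the residual class** -/
theorem residual (hC : SubColim C) {P : ℕ → Type} [∀ n, Group (P n)] (h : Chain P) :
    C (∀ n, P n) ↔ ∀ (G : Type) [Group G], Residual P G → C G := by
  refine ⟨fun hP G _ hG => of_fg hC G fun s => ?_, fun h' => h' _ (residual_pi P)⟩
  have := countable_closure s
  obtain ⟨f, hf⟩ := exists_pi h ↥(Subgroup.closure (s : Set G)) (by
    intro g hg
    obtain ⟨n, f, hf⟩ := hG g (fun h1 => hg (Subtype.ext h1))
    exact ⟨n, f.comp (Subgroup.subtype _), hf⟩)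
  exact hC.of_injective _ _ f hf hP

/-- **residually finite groups** -/
theorem residually_finite (hC : SubColim C) :
    C (∀ n : ℕ, Equiv.Perm (Fin n)) ↔ ∀ (G : Type) [Group G],
      (∀ g : G, g ≠ 1 → ∃ (Q : Type) (_ : Group Q) (_ : Finite Q) (f : G →* Q), f g ≠ 1) →
        C G := by
  have hch : Chain (fun n : ℕ => Equiv.Perm (Fin n)) := by
    intro n
    exact ⟨Equiv.Perm.viaEmbeddingHom (Fin.castSuccEmb (n := n)),
      Equiv.Perm.viaEmbeddingHom_injective _⟩
  rw [residual hC hch]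
  refine ⟨fun h G _ hG => h G fun g hg => ?_, fun h G _ hG => h G fun g hg => ?_⟩
  · obtain ⟨Q, _, _, f, hf⟩ := hG g hg
    obtain ⟨n, ⟨e⟩⟩ := Finite.exists_equiv_fin Q
    refine ⟨n, (e.permCongrHom.toMonoidHom.comp (MulAction.toPermHom Q Q)).comp f, ?_⟩
    intro h1
    apply hf
    have h2 : MulAction.toPermHom Q Q (f g) = 1 := by
      apply e.permCongrHom.injective
      rw [map_one]
      exact h1
    have h3 := DFunLike.congr_fun h2 (1 : Q)
    simpa using h3
  · obtain ⟨n, f, hf⟩ := hG g hg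
    exact ⟨Equiv.Perm (Fin n), inferInstance, inferInstance, f, hf⟩

end Q27.TG
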