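import Pool.Agent.Q27.TG.Lin

/-!
# Classes closed under subgroups and products have a countable test group
-/

set_option autoImplicit false

namespace Q27.TG

/-- A class of groups which is closed under subgroups (groups that embed) and products of families of
any size. -/
structure SubProd (Q : ∀ (G : Type) [Group G], Prop) : Prop where
  of_injective : ∀ (G H : Type) [Group G] [Group H] (f : G →* H), Function.Injective f →
    Q H → Q G
  pi : ∀ (I : Type) (G : I → Type) [∀ i, Group (G i)], (∀ i, Q (G i)) → Q (∀ i, G i)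

variable {Q C : ∀ (G : Type) [Group G], Prop}

/-- the smallest normal subgroup which contains `R` and has a quotient in the class -/
def rad (Q : ∀ (G : Type) [Group G], Prop) {F : Type} [Group F] (R : Set F) : Subgroup F :=
  sInf {K | ∃ _h : K.Normal, R ⊆ K ∧ Q (F ⧸ K)}

instance rad_normal {F : Type} [Group F] (R : Set F) : (rad Q R).Normal := by
  constructor
  intro x hx g
  rw [rad, Subgroup.mem_sInf] at hx ⊢
  rintro K ⟨hK, h1, h2⟩
  exact hK.conj_mem x (hx K ⟨hK, h1, h2⟩) g

theorem subset_rad {F : Type} [Group F] (R : Set F) : R ⊆ rad Q R := by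
  intro x hx
  rw [rad, SetLike.mem_coe, Subgroup.mem_sInf]
  rintro K ⟨hK, h1, h2⟩
  exact h1 hx

theorem rad_mono {F : Type} [Group F] {R R' : Set F} (h : R ⊆ R') : rad Q R ≤ rad Q R' :=
  sInf_le_sInf fun _ ⟨hK, h1, h2⟩ => ⟨hK, h.trans h1, h2⟩

theorem rad_le {F : Type} [Group F] {R : Set F} {K : Subgroup F} [K.Normal] (h : R ⊆ K)
    (hK : Q (F ⧸ K)) : rad Q R ≤ K := sInf_le ⟨inferInstance, h, hK⟩

theorem rad_mem (hQ : SubProd Q) {F : Type} [Group F] (R : Set F) : Q (F ⧸ rad Q R) := by
  let I := {K : Subgroup F // ∃ _h : K.Normal, R ⊆ K ∧ Q (F ⧸ K)}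
  have hn : ∀ i : I, i.1.Normal := fun i => i.2.choose
  refine hQ.of_injective _ (∀ i : I, F ⧸ i.1) (QuotientGroup.lift (rad Q R)
    (MonoidHom.pi fun i : I => QuotientGroup.mk' i.1) ?_) ?_
    (hQ.pi I (fun i => F ⧸ i.1) (fun i => i.2.choose_spec.2))
  · intro x hx
    funext i
    rw [rad, Subgroup.mem_sInf] at hx
    exact (QuotientGroup.eq_one_iff x).2 (hx i.1 i.2)
  · rw [injective_iff_map_eq_one]
    intro x
    induction x using QuotientGroup.induction_on with
    | H z =>
      intro hz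
      refine (QuotientGroup.eq_one_iff z).2 ?_
      rw [rad, Subgroup.mem_sInf]
      intro K hK
      have hKn : K.Normal := hK.choose
      exact (QuotientGroup.eq_one_iff z).1 (congrFun hz (⟨K, hK⟩ : I))

/-- **a single countable group of the class decides for the whole class** -/
theorem one_class (hQ : SubProd Q) : ∃ (U : Type) (_ : Group U), Countable U ∧ Q U ∧
    ∀ C : ∀ (G : Type) [Group G], Prop, SubColim C →
      (C U ↔ ∀ (G : Type) [Group G], Q G → C G) := by
  obtain ⟨e, he⟩ := exists_enum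
  let P : ℕ → Type := fun i => FreeGroup (Fin (e i).1) ⧸
    rad Q ((e i).2 : Set (FreeGroup (Fin (e i).1)))
  have hcount : Countable (Q30.FJ.dsum P) := Q30.FJ.dsum_countable
  have hmem : Q (Q30.FJ.dsum P) :=
    hQ.of_injective _ (∀ i, P i) (Subgroup.subtype _) Subtype.val_injective
      (hQ.pi ℕ P (fun i => rad_mem hQ _))
  refine ⟨Q30.FJ.dsum P, inferInstance, hcount, hmem, fun C hC => ⟨fun hU G _ hG => ?_,
    fun h => h _ hmem⟩⟩
  refine of_idx hC Q hQ.of_injective (fun n R => rad Q (R : Set (FreeGroup (Fin n))))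
    (fun n R R' hR => rad_mono (by exact_mod_cast hR)) (fun n R => subset_rad _)
    (fun n K _ hK R hR => rad_le hR hK) (fun n R => ?_) G hG
  obtain ⟨i, hi⟩ := he ⟨n, R⟩
  have h1 : C (P i) := by
    classical
    refine hC.of_injective _ _ (MonoidHom.mk' (fun x => ⟨Pi.mulSingle i x, i + 1, fun j hj =>
      Pi.mulSingle_eq_of_ne (by omega) x⟩) (fun x y => Subtype.ext (Pi.mulSingle_mul i x y))) ?_ hU
    intro x y hxy
    exact Pi.mulSingle_injective i (congrArg Subtype.val hxy)
  have h2 : C (FreeGroup (Fin (e i).1) ⧸ rad Q ((e i).2 : Set (FreeGroup (Fin (e i).1)))) := h1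
  rw [hi] at h2
  exact h2

theorem fg_map {G H : Type} [Group G] [Group H] (f : G →* H) {K : Subgroup G} (hK : K.FG) :
    (K.map f).FG := by
  classical
  obtain ⟨S, rfl⟩ := hK
  refine ⟨S.image f, ?_⟩
  rw [MonoidHom.map_closure, Finset.coe_image]

/-- torsion-free groups -/
theorem subProd_tf : SubProd (fun G _ => Q30.FJ.TorsionFree G) := by
  refine ⟨fun G H _ _ f hf hH g n hn hg => ?_, fun I G _ h g n hn hg => ?_⟩
  · apply hf
    rw [map_one]
    exact hH (f g) n hn (by rw [← map_pow, hg, map_one])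
  · funext i
    exact h i (g i) n hn (congrFun hg i)

/-- `G` is locally indicable: each nontrivial finitely generated subgroup has a nontrivial
homomorphism to `ℤ` -/
def LocallyIndicable (G : Type) [Group G] : Prop :=
  ∀ H : Subgroup G, H.FG → H ≠ ⊥ → ∃ f : H →* Multiplicative ℤ, f ≠ 1

theorem subProd_li : SubProd (fun G _ => LocallyIndicable G) := by
  refine ⟨fun G H _ _ f hf hH K hK hne => ?_, fun I G _ h K hK hne => ?_⟩
  · obtain ⟨u, hu⟩ := hH (K.map f) (fg_map f hK) (by
      intro h1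
      apply hne
      rwa [Subgroup.map_eq_bot_iff_of_injective K hf] at h1)
    refine ⟨u.comp (f.subgroupMap K), fun h1 => hu ?_⟩
    ext1 x
    obtain ⟨y, rfl⟩ := f.subgroupMap_surjective K x
    exact DFunLike.congr_fun h1 y
  · obtain ⟨x, hx, hx1⟩ := K.bot_or_exists_ne_one.resolve_left hne
    obtain ⟨i, hi⟩ : ∃ i, x i ≠ 1 := by
      by_contra hcon
      push Not at hcon
      exact hx1 (funext hcon)
    obtain ⟨u, hu⟩ := h i (K.map (Pi.evalMonoidHom G i)) (fg_map _ hK) (by
      intro h1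
      apply hi
      have h2 : x i ∈ K.map (Pi.evalMonoidHom G i) := ⟨x, hx, rfl⟩
      rw [h1] at h2
      exact Subgroup.mem_bot.1 h2)
    refine ⟨u.comp ((Pi.evalMonoidHom G i).subgroupMap K), fun h1 => hu ?_⟩
    ext1 y
    obtain ⟨z, rfl⟩ := (Pi.evalMonoidHom G i).subgroupMap_surjective K y
    exact DFunLike.congr_fun h1 z

/-- residually finite groups -/
def ResFinite (G : Type) [Group G] : Prop :=
  ∀ g : G, g ≠ 1 → ∃ (Q : Type) (_ : Group Q) (_ : Finite Q) (f : G →* Q), f g ≠ 1

theorem subProd_rf : SubProd (fun G _ => ResFinite G) := by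
  refine ⟨fun G H _ _ f hf hH g hg => ?_, fun I G _ h g hg => ?_⟩
  · obtain ⟨Q, _, _, u, hu⟩ := hH (f g) (fun h1 => hg (hf (h1.trans (map_one f).symm)))
    exact ⟨Q, inferInstance, inferInstance, u.comp f, hu⟩
  · obtain ⟨i, hi⟩ : ∃ i, g i ≠ 1 := by
      by_contra hcon
      push Not at hcon
      exact hg (funext hcon)
    obtain ⟨Q, _, _, u, hu⟩ := h i (g i) hi
    exact ⟨Q, inferInstance, inferInstance, u.comp (Pi.evalMonoidHom G i), hu⟩

end Q27.TG
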