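import Pool.Agent.Q27.TG.Base
import Pool.Agent.Q30.FJ.Emb3

/-!
# One group decides
-/

set_option autoImplicit false

namespace Q27.TG

open Pool.Agent.Y110.FJ (ClosedE)
open Q30.FJ (TorsionFree)

variable {C : ∀ (G : Type) [Group G], Prop}

theorem all_closedE : ClosedE (fun (_ : Type) _ => True) :=
  ⟨⟨trivial, fun _ _ _ _ _ _ _ => trivial, fun _ _ _ _ _ _ => trivial, fun _ _ _ _ _ _ => trivial,
    fun _ _ _ _ _ => trivial, fun _ _ _ _ _ _ _ _ _ _ _ _ _ _ _ _ => trivial⟩,
    fun _ _ _ _ _ _ _ _ => trivial⟩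

/-- the smallest normal subgroup which contains `R` and has a torsion-free quotient -/
def tfr {F : Type} [Group F] (R : Set F) : Subgroup F :=
  sInf {K | K.Normal ∧ R ⊆ K ∧ ∀ (x : F) (n : ℕ), 0 < n → x ^ n ∈ K → x ∈ K}

instance tfr_normal {F : Type} [Group F] (R : Set F) : (tfr R).Normal := by
  constructor
  intro x hx g
  rw [tfr, Subgroup.mem_sInf] at hx ⊢
  intro K hK
  exact hK.1.conj_mem x (hx K hK) g

theorem subset_tfr {F : Type} [Group F] (R : Set F) : R ⊆ tfr R := by
  intro x hx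
  rw [tfr, SetLike.mem_coe, Subgroup.mem_sInf]
  intro K hK
  exact hK.2.1 hx

theorem tfr_mono {F : Type} [Group F] {R R' : Set F} (h : R ⊆ R') : tfr R ≤ tfr R' :=
  sInf_le_sInf fun _ hK => ⟨hK.1, h.trans hK.2.1, hK.2.2⟩

theorem tfr_tf {F : Type} [Group F] (R : Set F) : TorsionFree (F ⧸ tfr R) := by
  intro g n hn hg
  induction g using QuotientGroup.induction_on with
  | H x =>
    have h1 : x ^ n ∈ tfr R := by
      rw [← QuotientGroup.eq_one_iff]
      exact hg
    refine (QuotientGroup.eq_one_iff x).2 ?_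
    rw [tfr, Subgroup.mem_sInf] at h1 ⊢
    intro K hK
    exact hK.2.2 x n hn (h1 K hK)

theorem tfr_le {F : Type} [Group F] {R : Set F} {K : Subgroup F} [K.Normal] (h : R ⊆ K)
    (hK : TorsionFree (F ⧸ K)) : tfr R ≤ K := by
  refine sInf_le ⟨inferInstance, h, fun x n hn hx => ?_⟩
  have h1 : (QuotientGroup.mk x : F ⧸ K) ^ n = 1 := (QuotientGroup.eq_one_iff (x ^ n)).2 hx
  exact (QuotientGroup.eq_one_iff x).1 (hK _ n hn h1)

/-- indices of finite presentations -/
abbrev Idx : Type := Σ n : ℕ, Finset (FreeGroup (Fin n))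

instance countable_free (n : ℕ) : Countable (FreeGroup (Fin n)) :=
  inferInstanceAs (Countable (Quot _))

instance countable_quot (n : ℕ) (K : Subgroup (FreeGroup (Fin n))) :
    Countable (FreeGroup (Fin n) ⧸ K) :=
  (QuotientGroup.mk_surjective (s := K)).countable

theorem fg_equiv (G : Type) [Group G] (s : Finset G) :
    ∃ (n : ℕ) (π : FreeGroup (Fin n) →* ↥(Subgroup.closure (s : Set G))),
      Function.Surjective π := by
  obtain ⟨n, ⟨e⟩⟩ := Finite.exists_equiv_fin s
  refine ⟨n, (FreeGroup.lift fun i => ((e.symm i : s) : G)).codRestrict _ (fun x => ?_), ?_⟩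
  · have h1 : (FreeGroup.lift fun i => ((e.symm i : s) : G)).range ≤
        Subgroup.closure (s : Set G) := by
      rw [FreeGroup.range_lift_eq_closure]
      apply Subgroup.closure_mono
      rintro _ ⟨i, rfl⟩
      exact (e.symm i).2
    exact h1 ⟨x, rfl⟩
  · rintro ⟨y, hy⟩
    have h1 : Subgroup.closure (s : Set G) ≤
        (FreeGroup.lift fun i => ((e.symm i : s) : G)).range := by
      rw [FreeGroup.range_lift_eq_closure]
      apply Subgroup.closure_mono
      intro z hz
      exact ⟨e ⟨z, hz⟩, congrArg Subtype.val (e.symm_apply_apply _)⟩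
    obtain ⟨x, hx⟩ := h1 hy
    exact ⟨x, Subtype.ext hx⟩

/-- from finitely generated free groups to all groups -/
theorem of_idx (hC : SubColim C) (P : ∀ (G : Type) [Group G], Prop)
    (hP : ∀ (G H : Type) [Group G] [Group H] (f : G →* H), Function.Injective f → P H → P G)
    (ρ : ∀ n : ℕ, Finset (FreeGroup (Fin n)) → Subgroup (FreeGroup (Fin n)))
    [∀ n R, (ρ n R).Normal] (hmono : ∀ n R R', R ⊆ R' → ρ n R ≤ ρ n R')
    (hself : ∀ n (R : Finset (FreeGroup (Fin n))), (R : Set (FreeGroup (Fin n))) ⊆ ρ n R)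
    (hle : ∀ (n : ℕ) (K : Subgroup (FreeGroup (Fin n))) [K.Normal], P (FreeGroup (Fin n) ⧸ K) →
      ∀ R : Finset (FreeGroup (Fin n)), (R : Set (FreeGroup (Fin n))) ⊆ K → ρ n R ≤ K)
    (h : ∀ n R, C (FreeGroup (Fin n) ⧸ ρ n R)) (G : Type) [Group G] (hG : P G) : C G := by
  refine of_fg hC G fun s => ?_
  obtain ⟨n, π, hπ⟩ := fg_equiv G s
  have e : FreeGroup (Fin n) ⧸ π.ker ≃* ↥(Subgroup.closure (s : Set G)) :=
    QuotientGroup.quotientKerEquivOfSurjective π hπ
  have hPK : P (FreeGroup (Fin n) ⧸ π.ker) :=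
    hP _ G ((Subgroup.subtype _).comp e.toMonoidHom) (Subtype.val_injective.comp e.injective) hG
  exact hC.of_injective _ _ e.symm.toMonoidHom e.symm.injective
    (of_relations hC _ π.ker (ρ n) (hmono n) (hself n) (hle n π.ker hPK) (fun R _ => h n R))

/-- the enumeration of the finite presentations -/
theorem exists_enum : ∃ e : ℕ → Idx, Function.Surjective e := by
  have : Nonempty Idx := ⟨⟨0, ∅⟩⟩
  exact exists_surjective_nat Idx

/-- **a single two-generated group decides for all groups** -/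
theorem one_all : ∃ (U : Type) (_ : Group U) (a b : U), Subgroup.closure {a, b} = ⊤ ∧
    ∀ C : ∀ (G : Type) [Group G], Prop, SubColim C → (C U ↔ ∀ (G : Type) [Group G], C G) := by
  obtain ⟨e, he⟩ := exists_enum
  have hcnt : ∀ i : ℕ, Countable (FreeGroup (Fin (e i).1) ⧸
      Subgroup.normalClosure ((e i).2 : Set (FreeGroup (Fin (e i).1)))) := fun i => inferInstance
  obtain ⟨U, _, a, b, -, hab, hι, -⟩ := Q30.FJ.embed_seq all_closedE (G := fun i =>
    FreeGroup (Fin (e i).1) ⧸ Subgroup.normalClosure ((e i).2 : Set (FreeGroup (Fin (e i).1))))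
    (fun _ => trivial)
  refine ⟨U, inferInstance, a, b, hab, fun C hC => ⟨fun hU G _ => ?_, fun h => h U⟩⟩
  refine of_idx hC (fun _ _ => True) (fun _ _ _ _ _ _ _ => trivial)
    (fun n R => Subgroup.normalClosure (R : Set (FreeGroup (Fin n))))
    (fun n R R' hR => Subgroup.normalClosure_mono (by exact_mod_cast hR))
    (fun n R => Subgroup.subset_normalClosure)
    (fun n K _ _ R hR => Subgroup.normalClosure_le_normal hR) (fun n R => ?_) G trivial
  obtain ⟨i, hi⟩ := he ⟨n, R⟩
  have h2 := hι i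
  rw [hi] at h2
  obtain ⟨ι, hinj⟩ := h2
  exact hC.of_injective _ U ι hinj hU

/-- **a single two-generated torsion-free group decides for all torsion-free groups** -/
theorem one_tf : ∃ (U : Type) (_ : Group U) (a b : U), Subgroup.closure {a, b} = ⊤ ∧
    TorsionFree U ∧ ∀ C : ∀ (G : Type) [Group G], Prop, SubColim C →
      (C U ↔ ∀ (G : Type) [Group G], TorsionFree G → C G) := by
  obtain ⟨e, he⟩ := exists_enum
  obtain ⟨U, _, a, b, -, hab, hι, htf⟩ := Q30.FJ.embed_seq all_closedE (G := fun i =>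
    FreeGroup (Fin (e i).1) ⧸ tfr ((e i).2 : Set (FreeGroup (Fin (e i).1))))
    (fun _ => trivial)
  have hU := htf (fun i => tfr_tf _)
  refine ⟨U, inferInstance, a, b, hab, hU, fun C hC => ⟨fun hCU G _ hG => ?_, fun h => h U hU⟩⟩
  refine of_idx hC (fun G _ => TorsionFree G) (fun G H _ _ f hf hH g n hn hg => ?_)
    (fun n R => tfr (R : Set (FreeGroup (Fin n))))
    (fun n R R' hR => tfr_mono (by exact_mod_cast hR))
    (fun n R => subset_tfr _)
    (fun n K _ hK R hR => tfr_le hR hK) (fun n R => ?_) G hG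
  · apply hf
    rw [map_one]
    exact hH (f g) n hn (by rw [← map_pow, hg, map_one])
  · obtain ⟨i, hi⟩ := he ⟨n, R⟩
    have h2 := hι i
    rw [hi] at h2
    obtain ⟨ι, hinj⟩ := h2
    exact hC.of_injective _ U ι hinj hCU

end Q27.TG
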