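import Pool.Agent.Q27.TG.Chn
import Mathlib.FieldTheory.IsAlgClosed.Classification
import Mathlib.SetTheory.Cardinal.Subfield
import Mathlib.Algebra.MvPolynomial.Cardinal
import Mathlib.RingTheory.Localization.Cardinality
import Mathlib.Analysis.Complex.Polynomial.Basic
import Mathlib.Analysis.Complex.Cardinality
import Mathlib.LinearAlgebra.Matrix.GeneralLinearGroup.Defs

/-!
# Linear groups over fields of characteristic zero
-/

set_option autoImplicit false

namespace Q27.TG

open Cardinal

/-- countable fields of characteristic zero embed in the complex numbers -/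
theorem exists_complex (K : Type) [Field K] [CharZero K] [Countable K] : Nonempty (K →+* ℂ) := by
  let P := MvPolynomial ℝ K
  let Q := FractionRing P
  let L := AlgebraicClosure Q
  have hK : #K ≤ ℵ₀ := mk_le_aleph0
  have hP : #P = 𝔠 := by
    rw [MvPolynomial.cardinalMk_eq_max]
    rw [mk_real]
    rw [max_eq_left]
    · exact max_eq_right (hK.trans aleph0_le_continuum)
    · exact aleph0_le_continuum.trans (le_max_right _ _)
  have hQ : #Q = 𝔠 := by rw [Cardinal.mk_fractionRing, hP]
  have hL : #L = 𝔠 := by
    apply le_antisymm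
    · refine (Algebra.IsAlgebraic.cardinalMk_le_max Q L).trans ?_
      rw [hQ]
      exact max_le le_rfl aleph0_le_continuum
    · rw [← hQ]
      exact mk_le_of_injective (algebraMap Q L).injective
  have : CharZero P := charZero_of_injective_algebraMap (algebraMap K P).injective
  have : CharZero Q := charZero_of_injective_algebraMap (IsFractionRing.injective P Q)
  have : CharZero L := charZero_of_injective_algebraMap (algebraMap Q L).injective
  obtain ⟨e⟩ : Nonempty (L ≃+* ℂ) := IsAlgClosed.ringEquiv_of_equiv_of_charZero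
    (by rw [hL]; exact aleph0_lt_continuum) (Cardinal.eq.1 (by rw [hL, mk_complex]))
  exact ⟨(e : L →+* ℂ).comp ((algebraMap Q L).comp ((algebraMap P Q).comp (algebraMap K P)))⟩

variable {C : ∀ (G : Type) [Group G], Prop}

/-- **the complex linear groups decide for the linear groups of the same degree in characteristic
zero** -/
theorem linear (hC : SubColim C) (n : ℕ) :
    C (GL (Fin n) ℂ) ↔ ∀ (F : Type) [Field F] [CharZero F], C (GL (Fin n) F) := by
  refine ⟨fun h F _ _ => of_fg hC _ fun s => ?_, fun h => h ℂ⟩
  obtain ⟨S, hS⟩ : ∃ S : Set F, S = ⋃ g ∈ s, (Set.range (fun p : Fin n × Fin n =>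
    (g : Matrix (Fin n) (Fin n) F) p.1 p.2) ∪ Set.range (fun p : Fin n × Fin n =>
      ((g⁻¹ : GL (Fin n) F) : Matrix (Fin n) (Fin n) F) p.1 p.2)) := ⟨_, rfl⟩
  have hSf : S.Finite := by
    rw [hS]
    exact s.finite_toSet.biUnion fun g _ => (Set.finite_range _).union (Set.finite_range _)
  let K := Subfield.closure S
  have hK : Countable K := by
    rw [← mk_le_aleph0_iff]
    refine (Subfield.cardinalMk_closure_le_max S).trans (max_le ?_ le_rfl)
    have := hSf.to_subtype
    exact mk_le_aleph0
  obtain ⟨φ⟩ := exists_complex K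
  let ι : GL (Fin n) K →* GL (Fin n) F := Matrix.GeneralLinearGroup.map K.subtype
  have hι : Function.Injective ι := by
    intro x y hxy
    apply Units.ext
    ext i j
    have h1 := congrFun (congrFun (congrArg (fun z : GL (Fin n) F =>
      (z : Matrix (Fin n) (Fin n) F)) hxy) i) j
    exact h1
  have hφ : Function.Injective (Matrix.GeneralLinearGroup.map φ :
      GL (Fin n) K →* GL (Fin n) ℂ) := by
    intro x y hxy
    apply Units.ext
    ext i j
    have h1 := congrFun (congrFun (congrArg (fun z : GL (Fin n) ℂ =>
      (z : Matrix (Fin n) (Fin n) ℂ)) hxy) i) j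
    exact congrArg Subtype.val (φ.injective h1)
  have hle : Subgroup.closure (s : Set (GL (Fin n) F)) ≤ ι.range := by
    rw [Subgroup.closure_le]
    intro g hg
    have hm : ∀ i j, (g : Matrix (Fin n) (Fin n) F) i j ∈ K := fun i j =>
      Subfield.subset_closure (by
        rw [hS]
        exact Set.mem_biUnion hg (Or.inl ⟨(i, j), rfl⟩))
    have hm' : ∀ i j, ((g⁻¹ : GL (Fin n) F) : Matrix (Fin n) (Fin n) F) i j ∈ K := fun i j =>
      Subfield.subset_closure (by
        rw [hS]
        exact Set.mem_biUnion hg (Or.inr ⟨(i, j), rfl⟩))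
    obtain ⟨a, ha⟩ : ∃ a : Matrix (Fin n) (Fin n) K, a.map K.subtype = g :=
      ⟨fun i j => ⟨_, hm i j⟩, by ext i j; rfl⟩
    obtain ⟨b, hb⟩ : ∃ b : Matrix (Fin n) (Fin n) K, b.map K.subtype =
      ((g⁻¹ : GL (Fin n) F) : Matrix (Fin n) (Fin n) F) := ⟨fun i j => ⟨_, hm' i j⟩, by ext i j; rfl⟩
    have hinj : Function.Injective (fun x : Matrix (Fin n) (Fin n) K => x.map K.subtype) := by
      intro x y hxy
      ext i j
      exact congrFun (congrFun hxy i) j
    have hab : a * b = 1 := by
      apply hinj
      change (a * b).map K.subtype = (1 : Matrix (Fin n) (Fin n) K).map K.subtype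
      rw [Matrix.map_mul, ha, hb, ← Units.val_mul, mul_inv_cancel, Units.val_one,
        Matrix.map_one _ (map_zero _) (map_one _)]
    have hba : b * a = 1 := by
      apply hinj
      change (b * a).map K.subtype = (1 : Matrix (Fin n) (Fin n) K).map K.subtype
      rw [Matrix.map_mul, ha, hb, ← Units.val_mul, inv_mul_cancel, Units.val_one,
        Matrix.map_one _ (map_zero _) (map_one _)]
    refine ⟨⟨a, b, hab, hba⟩, Units.ext ?_⟩
    exact ha
  refine hC.of_injective _ _ ((Matrix.GeneralLinearGroup.map φ).comp
    ((MonoidHom.ofInjective hι).symm.toMonoidHom.comp (Subgroup.inclusion hle))) ?_ h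
  exact hφ.comp ((MonoidHom.ofInjective hι).symm.injective.comp (Subgroup.inclusion_injective hle))

end Q27.TG
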