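import Pool.Agent.Q27.TG.Count
import Mathlib.Order.CountableDenseLinearOrder
import Mathlib.Order.PiLex

/-!
# Left-orderable groups
-/

set_option autoImplicit false

namespace Q27.TG

/-- `G` has a linear order which is invariant under left multiplication. -/
def LeftOrderable (G : Type) [Group G] : Prop :=
  ∃ _ : LinearOrder G, ∀ a b c : G, a ≤ b → c * a ≤ c * b

theorem LeftOrderable.of_injective {G H : Type} [Group G] [Group H] (f : G →* H)
    (hf : Function.Injective f) (h : LeftOrderable H) : LeftOrderable G := by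
  obtain ⟨_, h⟩ := h
  refine ⟨LinearOrder.lift' f hf, fun a b c hab => ?_⟩
  change f (c * a) ≤ f (c * b)
  rw [map_mul, map_mul]
  exact h _ _ _ hab

/-- the order automorphisms of `ℚ` -/
theorem leftOrderable_aut : LeftOrderable (ℚ ≃o ℚ) := by
  obtain ⟨e, he⟩ := exists_surjective_nat ℚ
  have hinj : Function.Injective (fun f : ℚ ≃o ℚ => toLex (fun n : ℕ => f (e n))) := by
    intro f g hfg
    refine DFunLike.ext _ _ fun q => ?_
    obtain ⟨n, rfl⟩ := he q
    exact congrFun (toLex.injective hfg) n
  refine ⟨LinearOrder.lift' _ hinj, fun a b c hab => ?_⟩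
  have hab' : toLex (fun n : ℕ => a (e n)) ≤ toLex (fun n : ℕ => b (e n)) := hab
  change toLex (fun n : ℕ => c (a (e n))) ≤ toLex (fun n : ℕ => c (b (e n)))
  rcases hab'.lt_or_eq with h | h
  · apply le_of_lt
    obtain ⟨i, hi, hlt⟩ := h
    exact ⟨i, fun j hj => congrArg c (hi j hj), c.strictMono hlt⟩
  · have h1 : (fun n : ℕ => a (e n)) = fun n : ℕ => b (e n) := toLex.injective h
    have h2 : (fun n : ℕ => c (a (e n))) = fun n : ℕ => c (b (e n)) := by
      funext n
      exact congrArg c (congrFun h1 n)
    rw [h2]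

/-- countable left-orderable groups act faithfully on `ℚ` -/
theorem exists_embed (H : Type) [Group H] [Countable H] (hH : LeftOrderable H) :
    ∃ f : H →* (ℚ ≃o ℚ), Function.Injective f := by
  obtain ⟨_, h⟩ := hH
  have : Countable (H ×ₗ ℚ) := inferInstanceAs (Countable (H × ℚ))
  obtain ⟨e⟩ : Nonempty (H ×ₗ ℚ ≃o ℚ) := Order.iso_of_countable_dense _ _
  have hlt : ∀ a b c : H, a < b → c * a < c * b := by
    intro a b c hab
    refine lt_of_le_of_ne (h a b c hab.le) fun h1 => hab.ne (mul_left_cancel h1)
  have hmono : ∀ (c : H) (x y : H ×ₗ ℚ), x ≤ y →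
      toLex (c * (ofLex x).1, (ofLex x).2) ≤ toLex (c * (ofLex y).1, (ofLex y).2) := by
    intro c x y hxy
    rw [Prod.Lex.le_iff] at hxy ⊢
    rcases hxy with h1 | ⟨h1, h2⟩
    · exact Or.inl (hlt _ _ _ h1)
    · exact Or.inr ⟨congrArg (c * ·) h1, h2⟩
  obtain ⟨act, hact⟩ : ∃ act : H →* (H ×ₗ ℚ ≃o H ×ₗ ℚ), ∀ c x,
      act c x = toLex (c * (ofLex x).1, (ofLex x).2) := by
    refine ⟨{ toFun := fun c =>
                { toFun := fun x => toLex (c * (ofLex x).1, (ofLex x).2)
                  invFun := fun x => toLex (c⁻¹ * (ofLex x).1, (ofLex x).2)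
                  left_inv := fun x => ?_
                  right_inv := fun x => ?_
                  map_rel_iff' := fun {x y} => ⟨fun hxy => ?_, hmono c x y⟩ }
              map_one' := ?_
              map_mul' := fun c d => ?_ }, fun c x => rfl⟩
    · change toLex (c⁻¹ * (c * (ofLex x).1), (ofLex x).2) = x
      rw [inv_mul_cancel_left]
      rfl
    · change toLex (c * (c⁻¹ * (ofLex x).1), (ofLex x).2) = x
      rw [mul_inv_cancel_left]
      rfl
    · have h1 := hmono c⁻¹ _ _ hxy
      change toLex (c⁻¹ * (c * (ofLex x).1), (ofLex x).2) ≤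
        toLex (c⁻¹ * (c * (ofLex y).1), (ofLex y).2) at h1
      rw [inv_mul_cancel_left, inv_mul_cancel_left] at h1
      exact h1
    · refine DFunLike.ext _ _ fun x => ?_
      change toLex (1 * (ofLex x).1, (ofLex x).2) = x
      rw [one_mul]
      rfl
    · refine DFunLike.ext _ _ fun x => ?_
      change toLex (c * d * (ofLex x).1, (ofLex x).2) = toLex (c * (d * (ofLex x).1), (ofLex x).2)
      rw [mul_assoc]
  refine ⟨{ toFun := fun c => (e.symm.trans (act c)).trans e
            map_one' := ?_
            map_mul' := fun c d => ?_ }, fun c d hcd => ?_⟩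
  · refine DFunLike.ext _ _ fun q => ?_
    change e (act 1 (e.symm q)) = q
    rw [map_one]
    exact e.apply_symm_apply q
  · refine DFunLike.ext _ _ fun q => ?_
    change e (act (c * d) (e.symm q)) = e (act c (e.symm (e (act d (e.symm q)))))
    rw [e.symm_apply_apply, map_mul]
    rfl
  · have h1 : e (act c (e.symm (e (toLex (1, 0))))) = e (act d (e.symm (e (toLex (1, 0))))) :=
      DFunLike.congr_fun hcd _
    rw [e.symm_apply_apply] at h1
    have h2 := congrArg (fun x => (ofLex x).1) (e.injective h1)
    rw [hact, hact] at h2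
    change c * 1 = d * 1 at h2
    rwa [mul_one, mul_one] at h2

variable {C : ∀ (G : Type) [Group G], Prop}

theorem countable_closure {G : Type} [Group G] (s : Finset G) :
    Countable ↥(Subgroup.closure (s : Set G)) := by
  obtain ⟨n, π, hπ⟩ := fg_equiv G s
  exact hπ.countable

/-- **the order automorphisms of `ℚ` decide for all left-orderable groups** -/
theorem left_orderable (hC : SubColim C) :
    C (ℚ ≃o ℚ) ↔ ∀ (G : Type) [Group G], LeftOrderable G → C G := by
  refine ⟨fun h G _ hG => of_fg hC G fun s => ?_, fun h => h _ leftOrderable_aut⟩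
  have := countable_closure s
  obtain ⟨f, hf⟩ := exists_embed ↥(Subgroup.closure (s : Set G))
    (hG.of_injective (Subgroup.subtype _) Subtype.val_injective)
  exact hC.of_injective _ _ f hf h

end Q27.TG
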